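import Pool.Agent.Lib.MP_0a1b52_lc_GAP.FamG

/-!
Parameters and the main theorem.
-/

namespace Pool.Agent.CliqueModules

open Finset

/-- The lines of the affine plane over `ZMod p`, restricted to `k * m` columns. -/
theorem exists_lines (p k m : ℕ) [Fact p.Prime] (hp : k * m ≤ p) :
    ∃ β : Fin (p * p) → Fin k × Fin m → (Fin k × Fin m) × ZMod p, Linear β := by
  have hcard : Fintype.card (Fin k × Fin m) ≤ Fintype.card (ZMod p) := by
    rw [Fintype.card_prod, Fintype.card_fin, Fintype.card_fin, ZMod.card]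
    exact hp
  obtain ⟨x⟩ := Function.Embedding.nonempty_of_card_le hcard
  have e : Fin (p * p) ≃ ZMod p × ZMod p := Fintype.equivOfCardEq (by
    rw [Fintype.card_fin, Fintype.card_prod, ZMod.card])
  refine ⟨fun j u => (u, (e j).1 * x u + (e j).2), ?_, ?_⟩
  · intro j u v h
    exact congrArg Prod.fst h
  · intro j j' u v u' v' h h' huv
    rw [Prod.mk.injEq] at h h'
    obtain ⟨h1, h2⟩ := h
    obtain ⟨h3, h4⟩ := h'
    rw [← h1] at h2
    rw [← h3] at h4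
    have hne : x u - x v ≠ 0 := sub_ne_zero.2 fun h => huv (x.injective h)
    have h5 : ((e j).1 - (e j').1) * (x u - x v) = 0 := by linear_combination h2 - h4
    have h6 : (e j).1 = (e j').1 := by
      rcases mul_eq_zero.1 h5 with h | h
      · exact sub_eq_zero.1 h
      · exact absurd h hne
    have h7 : (e j).2 = (e j').2 := by
      rw [h6] at h2
      exact add_left_cancel h2
    exact e.injective (Prod.ext h6 h7)

theorem final_arith {γ : ℝ} {n d W a c1 C p s b : ℕ} (hW1 : 1 ≤ W)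
    (hLs : p * p * (s + 1) ≤ 2 ^ (b + 1)) (hC2 : 5184 * (c1 * c1) ≤ C)
    (hnn : n * n ≤ 576 * (c1 * c1) * (d + 1) ^ 2 * a ^ 20 * (p * p))
    (h1 : γ * (((p * p : ℕ) : ℝ) * 2 ^ (b + 1)) ≤
      8 * W * 2 ^ (b + 1) + ((p * p : ℕ) : ℝ) * (s + 1)) :
    γ * (n : ℝ) ^ 2 ≤ C * (d + 1) ^ 2 * W * (a : ℝ) ^ 20 := by
  have hW1' : (1 : ℝ) ≤ W := by exact_mod_cast hW1
  have hLsR : ((p * p : ℕ) : ℝ) * (s + 1) ≤ 2 ^ (b + 1) := by exact_mod_cast hLs
  have h2b : (0 : ℝ) < 2 ^ (b + 1) := pow_pos (by norm_num) _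
  have hγL : γ * ((p * p : ℕ) : ℝ) ≤ 9 * W := by
    refine le_of_mul_le_mul_right ?_ h2b
    calc γ * ((p * p : ℕ) : ℝ) * 2 ^ (b + 1) = γ * (((p * p : ℕ) : ℝ) * 2 ^ (b + 1)) := by ring
      _ ≤ 8 * W * 2 ^ (b + 1) + ((p * p : ℕ) : ℝ) * (s + 1) := h1
      _ ≤ 8 * W * 2 ^ (b + 1) + 1 * 2 ^ (b + 1) := by linarith
      _ ≤ 8 * W * 2 ^ (b + 1) + W * 2 ^ (b + 1) := by
          have := mul_le_mul_of_nonneg_right hW1' h2b.le
          linarith
      _ = 9 * W * 2 ^ (b + 1) := by ring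
  have hR0 : (0 : ℝ) ≤ C * (d + 1) ^ 2 * W * a ^ 20 := by positivity
  rcases le_or_gt γ 0 with hγ0 | hγ0
  · exact (mul_nonpos_of_nonpos_of_nonneg hγ0 (by positivity)).trans hR0
  have hnnR : (n : ℝ) * n ≤ 576 * (c1 * c1) * (d + 1) ^ 2 * a ^ 20 * ((p * p : ℕ) : ℝ) := by
    exact_mod_cast hnn
  have hC2R : (5184 : ℝ) * (c1 * c1) ≤ C := by exact_mod_cast hC2
  calc γ * (n : ℝ) ^ 2 = γ * ((n : ℝ) * n) := by ring
    _ ≤ γ * (576 * (c1 * c1) * (d + 1) ^ 2 * a ^ 20 * ((p * p : ℕ) : ℝ)) :=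
        mul_le_mul_of_nonneg_left hnnR hγ0.le
    _ = (576 * (c1 * c1) * (d + 1) ^ 2 * a ^ 20) * (γ * ((p * p : ℕ) : ℝ)) := by ring
    _ ≤ (576 * (c1 * c1) * (d + 1) ^ 2 * a ^ 20) * (9 * W) :=
        mul_le_mul_of_nonneg_left hγL (by positivity)
    _ = (5184 * (c1 * c1)) * ((d + 1) ^ 2 * W * a ^ 20) := by ring
    _ ≤ C * ((d + 1) ^ 2 * W * a ^ 20) := mul_le_mul_of_nonneg_right hC2R (by positivity)
    _ = C * (d + 1) ^ 2 * W * a ^ 20 := by ring

theorem trivial_gap {n d : ℕ} (hn : d + 2 ≤ Nat.sqrt n) :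
    ∃ (N N' : ℕ) (P : Fin N → SimpleGraph (Fin n)) (Q : Fin N' → SimpleGraph (Fin n)),
      0 < N ∧ 0 < N' ∧ (∀ i, HasClique (P i)) ∧ (∀ i, CliquesAtMost (Q i) d) := by
  classical
  refine ⟨1, 1, fun _ => ⊤, fun _ => ⊥, by norm_num, by norm_num, ?_, ?_⟩
  · intro i
    rw [hasClique_iff]
    refine ⟨univ, ?_, ?_⟩
    · intro x _ y _ hxy
      exact hxy
    · rw [card_univ, Fintype.card_fin]
      have := Nat.sqrt_le n
      nlinarith
  · intro i
    apply cliquesAtMost_of_card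
    intro T hT
    have h1 : T.card ≤ 1 := by
      rw [card_le_one]
      intro x hx y hy
      by_contra hxy
      exact hT hx hy hxy
    omega

theorem gap_main : ∃ C : ℕ, ∀ n S d : ℕ, d + C * (Nat.log 2 (n * S) + 1) ^ 9 ≤ Nat.sqrt n →
    ∃ (N N' : ℕ) (P : Fin N → SimpleGraph (Fin n)) (Q : Fin N' → SimpleGraph (Fin n)),
      0 < N ∧ 0 < N' ∧ (∀ i, HasClique (P i)) ∧ (∀ i, CliquesAtMost (Q i) d) ∧
      ∀ s ≤ S, ∀ D : Circuit (EdgeVar n) s,
        (D.acceptProb P - D.acceptProb Q) * n ^ 2 ≤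
          C * (d + 1) ^ 2 * D.weight univ * (Nat.log 2 (n * S) + 1) ^ 20 := by
  obtain ⟨c1, hc1⟩ : ∃ c1 : ℕ, 4299821569 ≤ c1 := ⟨_, le_rfl⟩
  obtain ⟨C, hC1, hC2, hC3⟩ : ∃ C : ℕ, c1 ≤ C ∧ 5184 * (c1 * c1) ≤ C ∧ 4 ≤ C :=
    ⟨c1 + 5184 * (c1 * c1) + 4, by omega, by omega, by omega⟩
  refine ⟨C, ?_⟩
  intro n S d hdn
  set a := Nat.log 2 (n * S) + 1 with ha
  have ha1 : 1 ≤ a := by omega
  have ha9 : 1 ≤ a ^ 9 := Nat.one_le_pow _ _ ha1
  set r := Nat.sqrt n with hr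
  have hdr : d ≤ r := by omega
  have hrn : r * r ≤ n := Nat.sqrt_le n
  have hCa : 4 * 1 ≤ C * a ^ 9 := Nat.mul_le_mul hC3 ha9
  have hr4 : 4 ≤ r := by omega
  -- trivial case
  rcases Nat.eq_zero_or_pos S with hS0 | hS0
  · obtain ⟨N, N', P, Q, hN, hN', hP, hQ⟩ := trivial_gap (n := n) (d := d) (by omega)
    refine ⟨N, N', P, Q, hN, hN', hP, hQ, ?_⟩
    intro s hs D
    have := D.out.isLt
    omega
  have hrn4 : 4 * r ≤ n := (Nat.mul_le_mul_right r hr4).trans hrn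
  have hn2 : 2 ≤ n := by omega
  have hEV : Nonempty (EdgeVar n) := ⟨⟨(⟨0, by omega⟩, ⟨1, by omega⟩), by
    rw [Fin.lt_def]; norm_num⟩⟩
  have hns : n * S < 2 ^ a := Nat.lt_pow_succ_log_self (by norm_num) _
  have hna : n < 2 ^ a := lt_of_le_of_lt (Nat.le_mul_of_pos_right _ hS0) hns
  have hSa : S < 2 ^ a := lt_of_le_of_lt (Nat.le_mul_of_pos_left _ (by omega)) hns
  -- parameters
  set b := 3 * a with hb
  set K := 8 * (b * b) with hK
  set t := 64 * ((2 * b) * (2 * b)) with ht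
  set g := K * K * K * (4 * a + 1) + 1 with hg
  have hbpos : 0 < b := by omega
  have hmpos : 0 < 2 * b := by omega
  have htpos : 0 < t := by positivity
  have ht3 : t ≤ 2304 * a ^ 2 := by
    rw [ht, hb]
    apply le_of_eq
    ring
  have hK9 : K = 72 * a ^ 2 := by
    rw [hK, hb]
    ring
  have hgle : g ≤ 1866241 * a ^ 7 := by
    calc g ≤ (72 * a ^ 2) * (72 * a ^ 2) * (72 * a ^ 2) * (5 * a) + 1 * a ^ 7 := by
          rw [hg, hK9]
          refine Nat.add_le_add (Nat.mul_le_mul_left _ (by omega)) ?_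
          rw [one_mul]
          exact Nat.one_le_pow _ _ ha1
      _ = 1866241 * a ^ 7 := by ring
  have hgt : g * t + t + 1 ≤ c1 * a ^ 9 := by
    have h29 : a ^ 2 ≤ a ^ 9 := Nat.pow_le_pow_right ha1 (by norm_num)
    calc g * t + t + 1 ≤ (1866241 * a ^ 7) * (2304 * a ^ 2) + 2304 * a ^ 9 + 1 * a ^ 9 := by
          refine Nat.add_le_add (Nat.add_le_add (Nat.mul_le_mul hgle ht3)
            (ht3.trans (Nat.mul_le_mul_left _ h29))) ?_
          rw [one_mul]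
          exact ha9
      _ = 4299821569 * a ^ 9 := by ring
      _ ≤ c1 * a ^ 9 := Nat.mul_le_mul_right _ hc1
  have hbig : c1 * a ^ 9 ≤ C * a ^ 9 := Nat.mul_le_mul_right _ hC1
  set k0 := d + g * t + 1 with hk0
  have hk0r : k0 + t ≤ r := by
    calc k0 + t = d + (g * t + t + 1) := by rw [hk0]; ring
      _ ≤ d + C * a ^ 9 := Nat.add_le_add_left (hgt.trans hbig) _
      _ ≤ r := hdn
  set f := r + 1 - k0 with hf
  have hfk : k0 + f = r + 1 := by omega
  set k := k0 / t + 1 with hk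
  have hkt : k0 ≤ k * t := by
    have := Nat.lt_div_mul_add (a := k0) (b := t) htpos
    rw [hk, add_mul, one_mul]
    omega
  have hkt2 : k * t ≤ k0 + t := by
    have := Nat.div_mul_le_self k0 t
    rw [hk, add_mul, one_mul]
    exact Nat.add_le_add_right this _
  have hkpos : 0 < k := by rw [hk]; exact Nat.succ_pos _
  have hkmt : 0 < 4 * (k * (2 * b)) * t := Nat.mul_pos (Nat.mul_pos (by norm_num)
    (Nat.mul_pos hkpos hmpos)) htpos
  set Q := n / (4 * (k * (2 * b)) * t) with hQ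
  -- there is room for many lines
  have hkmQ : k * (2 * b) ≤ Q := by
    rw [hQ, Nat.le_div_iff_mul_le hkmt]
    refine le_trans ?_ hrn
    refine Nat.le_of_mul_le_mul_right ?_ htpos
    calc k * (2 * b) * (4 * (k * (2 * b)) * t) * t =
          4 * ((2 * b) * (2 * b)) * ((k * t) * (k * t)) := by ring
      _ ≤ 4 * ((2 * b) * (2 * b)) * ((k0 + t) * (k0 + t)) :=
          Nat.mul_le_mul_left _ (Nat.mul_le_mul hkt2 hkt2)
      _ ≤ 4 * ((2 * b) * (2 * b)) * (r * r) :=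
          Nat.mul_le_mul_left _ (Nat.mul_le_mul hk0r hk0r)
      _ ≤ 64 * ((2 * b) * (2 * b)) * (r * r) :=
          Nat.mul_le_mul_right _ (Nat.mul_le_mul_right _ (by norm_num))
      _ = r * r * t := by rw [ht]; ring
  have hQpos : 0 < Q := lt_of_lt_of_le (Nat.mul_pos hkpos hmpos) hkmQ
  obtain ⟨p, hpp, hp1, hp2⟩ := Nat.exists_prime_lt_and_le_two_mul Q hQpos.ne'
  have : Fact p.Prime := ⟨hpp⟩
  have hp0 : 0 < p := hpp.pos
  have hroom : 2 * (k * (2 * b) * p * t) ≤ n := by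
    calc 2 * (k * (2 * b) * p * t) ≤ 2 * (k * (2 * b) * (2 * Q) * t) :=
          Nat.mul_le_mul_left _ (Nat.mul_le_mul_right _ (Nat.mul_le_mul_left _ hp2))
      _ = Q * (4 * (k * (2 * b)) * t) := by ring
      _ ≤ n := Nat.div_mul_le_self _ _
  obtain ⟨β, hβ⟩ := exists_lines p k (2 * b) (hkmQ.trans hp1.le)
  have hfr : f ≤ r := by omega
  have hcard : Fintype.card ((((Fin k × Fin (2 * b)) × ZMod p) × Fin t) ⊕ Fin f) ≤
      Fintype.card (Fin n) := by
    simp only [Fintype.card_sum, Fintype.card_prod, ZMod.card, Fintype.card_fin]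
    have h2f : 2 * f ≤ n := by
      calc 2 * f ≤ 2 * r := Nat.mul_le_mul_left _ hfr
        _ ≤ 4 * r := Nat.mul_le_mul_right _ (by norm_num)
        _ ≤ n := hrn4
    generalize k * (2 * b) * p * t = x at hroom ⊢
    clear * - hroom h2f
    omega
  obtain ⟨ε⟩ := Function.Embedding.nonempty_of_card_le hcard
  have hBc : Fintype.card ((Fin k × Fin (2 * b)) × ZMod p) ≤ 2 ^ a := by
    simp only [Fintype.card_prod, ZMod.card, Fintype.card_fin]
    have : k * (2 * b) * p ≤ k * (2 * b) * p * t := Nat.le_mul_of_pos_right _ htpos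
    omega
  have hpn : p ≤ n := by
    have h1 : p ≤ k * (2 * b) * p := Nat.le_mul_of_pos_left _ (Nat.mul_pos hkpos hmpos)
    have h2 : k * (2 * b) * p ≤ k * (2 * b) * p * t := Nat.le_mul_of_pos_right _ htpos
    omega
  obtain ⟨N, N', P, Q', hN, hN', hP, hQ', hadv⟩ := families_gap (K := K) hβ ε.injective
    (by omega) htpos (Nat.mul_pos hp0 hp0) b hbpos (by omega) (by rw [hK]) g a
    (a * g + (b + 1)) d (by omega) hBc le_rfl
    (by
      have hg1 : 1 ≤ g := by omega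
      have h1 : a * g + (b + 1) ≤ (4 * a + 1) * g := by
        calc a * g + (b + 1) ≤ a * g + (b + 1) * g :=
              Nat.add_le_add_left (Nat.le_mul_of_pos_right _ hg1) _
          _ = (4 * a + 1) * g := by rw [hb]; ring
      calc K * (a * g + (b + 1)) * (K * K) + g ≤ K * ((4 * a + 1) * g) * (K * K) + g :=
            Nat.add_le_add_right (Nat.mul_le_mul_right _ (Nat.mul_le_mul_left _ h1)) _
        _ = (K * K * K * (4 * a + 1) + 1) * g := by ring
        _ = g * g := by rw [← hg])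
    (by omega)
  refine ⟨N, N', P, Q', hN, hN', hP, hQ', ?_⟩
  intro s hs D
  have hsa : s < 2 ^ a := lt_of_le_of_lt hs hSa
  have h8 : s ≤ 8 ^ b := by
    calc s ≤ 2 ^ a := hsa.le
      _ ≤ 8 ^ a := Nat.pow_le_pow_left (by norm_num) _
      _ ≤ 8 ^ b := Nat.pow_le_pow_right (by norm_num) (by omega)
  have h1 := hadv s D (by
      calc 8 * (s * (b * b) ^ (b + 1)) = (8 * s) * (b * b) ^ (b + 1) := by ring
        _ ≤ (8 * 8 ^ b) * (b * b) ^ (b + 1) :=
            Nat.mul_le_mul_right _ (Nat.mul_le_mul_left _ h8)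
        _ = K ^ (b + 1) := by
            rw [hK, mul_pow 8 (b * b) (b + 1), pow_succ 8 b, Nat.mul_comm (8 ^ b) 8])
  -- conclusion
  have hnp : n ≤ 4 * (k * (2 * b)) * t * p := by
    have h1 := Nat.lt_mul_div_succ n hkmt
    rw [← hQ] at h1
    exact h1.le.trans (Nat.mul_le_mul_left _ hp1)
  have hkt3 : k * t ≤ (d + 1) * (c1 * a ^ 9) := by
    have hc11 : 1 ≤ c1 * a ^ 9 := Nat.mul_pos (by omega) ha9
    calc k * t ≤ k0 + t := hkt2
      _ = d * 1 + 1 * (g * t + t + 1) := by rw [hk0]; ring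
      _ ≤ d * (c1 * a ^ 9) + 1 * (c1 * a ^ 9) :=
          Nat.add_le_add (Nat.mul_le_mul_left _ hc11) (Nat.mul_le_mul_left _ hgt)
      _ = (d + 1) * (c1 * a ^ 9) := by ring
  have hnn : n * n ≤ 576 * (c1 * c1) * (d + 1) ^ 2 * a ^ 20 * (p * p) := by
    calc n * n ≤ (4 * (k * (2 * b)) * t * p) * (4 * (k * (2 * b)) * t * p) :=
          Nat.mul_le_mul hnp hnp
      _ = 16 * ((2 * b) * (2 * b)) * ((k * t) * (k * t)) * (p * p) := by ring
      _ ≤ 16 * ((2 * b) * (2 * b)) * (((d + 1) * (c1 * a ^ 9)) *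
          ((d + 1) * (c1 * a ^ 9))) * (p * p) :=
        Nat.mul_le_mul_right _ (Nat.mul_le_mul_left _ (Nat.mul_le_mul hkt3 hkt3))
      _ = 576 * (c1 * c1) * (d + 1) ^ 2 * a ^ 20 * (p * p) := by rw [hb]; ring
  have hLs : p * p * (s + 1) ≤ 2 ^ (b + 1) := by
    have h2 : p ≤ 2 ^ a := hpn.trans hna.le
    calc p * p * (s + 1) ≤ 2 ^ a * 2 ^ a * 2 ^ a :=
          Nat.mul_le_mul (Nat.mul_le_mul h2 h2) hsa
      _ = 2 ^ (3 * a) := by rw [← pow_add, ← pow_add]; congr 1; ring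
      _ ≤ 2 ^ (b + 1) := Nat.pow_le_pow_right (by norm_num) (by omega)
  have hac : ((a : ℕ) : ℝ) = (Nat.log 2 (n * S) : ℝ) + 1 := by rw [ha]; push_cast; rfl
  rw [← hac]
  exact final_arith (one_le_weight D univ) hLs hC2 hnn h1

end Pool.Agent.CliqueModules
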