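import Mathlib
import Pool.Agent.Lib.MP_0a1b52_lc_GAP.MainG

/-!
Lower bounds for the approximation of the clique number, for circuits in which the non-monotone
part is limited.

A `Circuit (EdgeVar n) s` has `s` gates, each of which is an AND gate, an OR gate (of unbounded
fan-in), or a special gate, which computes an arbitrary Boolean function of its wires (so a NOT
gate is a special gate with one wire). A module is the set `J` of the wires feeding some special
gate; several special gates fed by the same wires form one module. `D.weight univ` is the sum, over
all chains of modules (sets of modules any two of which are joined by a path in the circuit), of the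
products of the numbers of non-constant wires of these modules. For a circuit all of whose special
gates are NOT gates, it is at most the number of sets of negated wires which lie on one path, hence
at most `2 ^ h` if there are `h` NOT gates.

The theorem gives a family `P` of graphs with a clique of more than `√n` vertices and a family `Q`
of graphs whose cliques all have at most `√n - d` vertices, which no small circuit can distinguish
with an advantage exceeding `(d + 1)² · weight / n²`, up to a polylogarithmic factor.
-/

namespace Pool.Agent.Results.MP_0a1b52_lc.ApproximateClique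

open Pool.Agent.CliqueModules

/-- There is a constant `C` such that for all `n`, `S` and `d` with
`d + C (log₂ (n S) + 1) ^ 9 ≤ √n` there are a family `P` of graphs with a clique of more than `√n`
vertices and a family `Q` of graphs all of whose cliques have at most `√n - d` vertices, such that
every circuit `D` with at most `S` gates satisfies
`(Pr[D accepts P] - Pr[D accepts Q]) n² ≤ C (d + 1)² · weight · (log₂ (n S) + 1) ^ 20`. -/
theorem result : ∃ C : ℕ, ∀ n S d : ℕ, d + C * (Nat.log 2 (n * S) + 1) ^ 9 ≤ Nat.sqrt n →
    ∃ (N N' : ℕ) (P : Fin N → SimpleGraph (Fin n)) (Q : Fin N' → SimpleGraph (Fin n)),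
      0 < N ∧ 0 < N' ∧ (∀ i, HasClique (P i)) ∧ (∀ i, CliquesAtMost (Q i) d) ∧
      ∀ s ≤ S, ∀ D : Circuit (EdgeVar n) s,
        (D.acceptProb P - D.acceptProb Q) * n ^ 2 ≤
          C * (d + 1) ^ 2 * D.weight Finset.univ * (Nat.log 2 (n * S) + 1) ^ 20 :=
  gap_main

/-- The worst-case consequence: a circuit which accepts all graphs with a clique of more than `√n`
vertices and rejects all graphs whose cliques have at most `√n - d` vertices. -/
theorem worst_case : ∃ C : ℕ, ∀ (n s d : ℕ) (D : Circuit (EdgeVar n) s),
    (∀ G : SimpleGraph (Fin n), HasClique G → D.Accepts G) →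
    (∀ G : SimpleGraph (Fin n), CliquesAtMost G d → ¬ D.Accepts G) →
    d + C * (Nat.log 2 (n * s) + 1) ^ 9 ≤ Nat.sqrt n →
    n ^ 2 ≤ C * (d + 1) ^ 2 * D.weight Finset.univ * (Nat.log 2 (n * s) + 1) ^ 20 := by
  classical
  obtain ⟨C, hC⟩ := result
  refine ⟨C, fun n s d D hD1 hD2 hn => ?_⟩
  obtain ⟨N, N', P, Q, hN, hN', hP, hQ, h⟩ := hC n s d hn
  have h1 : D.acceptProb P = 1 := by
    have : (Finset.univ.filter fun i => D.Accepts (P i)) = Finset.univ :=
      Finset.filter_true_of_mem fun i _ => hD1 _ (hP i)
    unfold Circuit.acceptProb
    rw [this, Finset.card_univ, Fintype.card_fin]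
    have hN' : (N : ℝ) ≠ 0 := by exact_mod_cast hN.ne'
    exact div_self hN'
  have h2 : D.acceptProb Q = 0 := by
    have : (Finset.univ.filter fun i => D.Accepts (Q i)) = ∅ :=
      Finset.filter_false_of_mem fun i _ hc => hD2 _ (hQ i) hc
    unfold Circuit.acceptProb
    rw [this]
    simp
  have h3 := h s le_rfl D
  rw [h1, h2, sub_zero, one_mul] at h3
  exact_mod_cast h3

end Pool.Agent.Results.MP_0a1b52_lc.ApproximateClique
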