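import Pool.Agent.Lib.MP_0a1b52_lc_GAP.ApproxD
import Pool.Agent.Lib.MP_0a1b52_lc_MOD.Eval

/-!
The approximation theorem for circuits with special gates whose outputs are frozen.
-/

namespace Pool.Agent.CliqueModules

open Finset
open Pool.Agent.CliqueCircuits (InTy trans)

variable {V : Type} {s : ℕ}

/-- the kind of a gate; special gates are treated like NOT gates (their outputs are frozen) -/
def Gate.kd : Gate V s → CliqueCircuits.GateKind
  | .and _ => .and
  | .or _ => .or
  | .special _ _ => .not

/-- the wires of a gate, where special gates get a dummy wire -/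
def Gate.dw (v0 : V) : Gate V s → Finset (V ⊕ Fin s)
  | .and J => J
  | .or J => J
  | .special _ _ => {Sum.inl v0}

/-- the circuit in which each special gate is replaced by a NOT gate with a dummy wire -/
def Circuit.conv (D : Circuit V s) (v0 : V) : CliqueCircuits.Circuit V s where
  kind i := (D.gate i).kd
  wires i := (D.gate i).dw v0
  acyclic i j h := by
    refine D.acyclic i j ?_
    cases hg : D.gate i with
    | and J => rw [hg] at h; exact h
    | or J => rw [hg] at h; exact h
    | special J f => rw [hg] at h; simp [Gate.dw] at h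
  unary i h := by
    cases hg : D.gate i with
    | and J => rw [hg] at h; simp [Gate.kd] at h
    | or J => rw [hg] at h; simp [Gate.kd] at h
    | special J f => simp [Gate.dw]
  out := D.out

theorem Circuit.conv_frozen (D : Circuit V s) (v0 : V) (b : Fin s → Prop) (x : V → Prop)
    (val : Fin s → Prop) : (D.conv v0).IsFrozen b x val ↔ D.IsFrozen b x val := by
  refine forall_congr' fun i => ?_
  have h1 : (D.conv v0).kind i = (D.gate i).kd := rfl
  have h2 : (D.conv v0).wires i = (D.gate i).dw v0 := rfl
  rw [h1, h2]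
  cases D.gate i with
  | and J => exact Iff.rfl
  | or J => exact Iff.rfl
  | special J f => exact Iff.rfl

/-- The approximation theorem for circuits with special gates. -/
theorem approx_dich {k m : ℕ} [hV : Nonempty V] (D : Circuit V s) (b : Fin s → Prop)
    (τ : V → InTy (Fin k × Fin m))
    (hne : ∀ v u u', τ v = InTy.pair u u' → u ≠ u') (K q l : ℕ) (hq : 1 ≤ q) (hl : 2 ≤ l) :
    ∃ BadP : Finset (Fin k → Fin m), ∃ BadN : Finset (Fin k × Fin m → Fin K),
      BadP.card * m ^ (l + 1) ≤ s * (q ^ (l + 1) * m ^ k) ∧
      BadN.card * K ^ (q + 1) ≤ s * ((l * l) ^ (q + 1) * K ^ (k * m)) ∧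
      ∀ w : V ⊕ Fin s,
        (∀ p ∉ BadP, ∀ val, D.IsFrozen b (fun v => (τ v).pos p) val →
          ¬ Sum.elim (fun v => (τ v).pos p) val w) ∨
        (∃ X : Finset (Fin k × Fin m), X.card ≤ l ∧
          ∀ c ∉ BadN, Set.InjOn c X → ∀ val, D.IsFrozen b (fun v => (τ v).neg c) val →
            Sum.elim (fun v => (τ v).neg c) val w) := by
  obtain ⟨v0⟩ := hV
  obtain ⟨BadP, BadN, h1, h2, h3⟩ :=
    CliqueCircuits.approx_dich (D.conv v0) b τ hne K q l hq hl
  refine ⟨BadP, BadN, h1, h2, ?_⟩
  intro w
  rcases h3 w with h | ⟨X, hX, h⟩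
  · left
    intro p hp val hval
    exact h p hp val ((D.conv_frozen v0 b _ val).2 hval)
  · right
    refine ⟨X, hX, ?_⟩
    intro c hc hcX val hval
    exact h c hc hcX val ((D.conv_frozen v0 b _ val).2 hval)

end Pool.Agent.CliqueModules
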