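import Pool.Agent.Lib.MP_0a1b52_lc_GAP.RandomG
import Pool.Agent.Lib.MP_0a1b52_lc_RND.Main

/-!
The bound on the advantage of a circuit on the random chain of coloured lines.
-/

namespace Pool.Agent.CliqueModules

open Finset
open Pool.Agent.CliqueCircuits (InTy trans OState stN stN_succ stN_congr Det)

variable {n k q m K t f s L : ℕ} {B : Type}

theorem stN_le (c : Fin L → Fin k × Fin m → Fin K) (w : ℕ) (j : Fin L) (y y' : Fin k × Fin m)
    (h : (stN c w j).rel y y') : (stN c (w + 1) j).rel y y' ∧ c j y ≠ c j y' := by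
  by_cases hj : j.val < w
  · have e1 : stN c w j = OState.col (c j) := if_pos hj
    have e2 : stN c (w + 1) j = OState.col (c j) := if_pos (by omega)
    rw [e1] at h
    rw [e2]
    exact ⟨h, h⟩
  · have e1 : stN c w j = OState.zero := if_neg hj
    rw [e1] at h
    exact absurd h id

theorem stN_self (c : Fin L → Fin k × Fin m → Fin K) (j : Fin L) :
    stN c j.val j = OState.zero := if_neg (lt_irrefl _)

theorem stN_update (c : Fin L → Fin k × Fin m → Fin K) (j : Fin L) (x : Fin k × Fin m → Fin K) :
    stN (Function.update c j x) j.val = stN c j.val := by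
  apply stN_congr
  intro i hi
  rw [Function.update_of_ne]
  rintro rfl
  exact lt_irrefl _ hi

open Classical in
/-- The bound on the advantage of a circuit on the random chain. -/
theorem core_gap [Nonempty (EdgeVar n)] (D : Circuit (EdgeVar n) s)
    {β : Fin L → Fin k × Fin (2 * q) → B} (hβ : Linear β) {ε : (B × Fin t) ⊕ Fin f → Fin n}
    (hε : Function.Injective ε) (l : ℕ) (hq : 1 ≤ q) (hl : 2 ≤ l)
    (h1 : 8 * (s * (l * l) ^ (q + 1)) ≤ K ^ (q + 1)) (h3 : 8 * (l * l) ≤ K) :
    (univ.filter fun i : (Fin L → Fin k × Fin (2 * q) → Fin K) × Fin L ×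
        (Fin k → Fin (2 * q)) =>
        D.Acc (pasg β ε (Function.update (stN i.1 i.2.1) i.2.1
          (OState.tr i.2.2)))).card * 2 ^ (l + 1) ≤
    (univ.filter fun i : (Fin L → Fin k × Fin (2 * q) → Fin K) × Fin L ×
        (Fin k → Fin (2 * q)) =>
        D.Acc (pasg β ε (stN i.1 i.2.1))).card * 2 ^ (l + 1) +
    Fintype.card (Fin L → Fin k × Fin (2 * q) → Fin K) * (2 * q) ^ k *
      (8 * D.weight univ * 2 ^ (l + 1) + L * s) := by
  -- the events
  let Ev : (Fin L → Fin k × Fin (2 * q) → Fin K) → ℕ → Prop := fun ω t =>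
    D.Changes (pasg β ε (stN ω t)) (pasg β ε (stN ω (t + 1)))
  obtain ⟨S, hSdef⟩ : ∃ S : Fin L → (Fin L → Fin k × Fin (2 * q) → Fin K) → Prop, ∀ t ω, S t ω ↔
    Fintype.card (Fin k × Fin (2 * q) → Fin K) ≤
      4 * (univ.filter fun ω' : Fin k × Fin (2 * q) → Fin K =>
      Ev (Function.update ω t ω') t.val).card := ⟨_, fun _ _ => Iff.rfl⟩
  have hS : ∀ t : Fin L, (univ.filter (S t)).card ≤ 4 * (univ.filter fun ω => Ev ω t.val).card :=
    fun t => resample t (S t) (fun ω => Ev ω t.val) (fun ω h => (hSdef t ω).1 h)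
  -- the number of events on a chain
  have hEv : ∀ ω, ((range L).filter fun t => Ev ω t).card ≤ 2 * D.weight univ := by
    intro ω
    choose val hval using fun t => D.exists_eval (pasg β ε (stN ω t))
    refine le_trans (card_le_card ?_) (chain_count D univ L (fun t => pasg β ε (stN ω t)) val
      hval ?_ ?_).le
    · intro t ht
      obtain ⟨htM, v, v', w, hv, hv', hw, hne⟩ := mem_filter.1 ht
      refine mem_filter.2 ⟨htM, w, hw, ?_⟩
      rw [(hval t).unique hv, (hval (t + 1)).unique hv']
      exact hne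
    · intro t v
      exact PG_mono (fun j y y' h => (stN_le ω t j y y' h).1) _ _
    · intro t v hv
      exact absurd (mem_univ v) hv
  have hEv' : ∑ t : Fin L, (univ.filter fun ω : Fin L → Fin k × Fin (2 * q) → Fin K =>
      Ev ω t.val).card ≤
      Fintype.card (Fin L → Fin k × Fin (2 * q) → Fin K) * (2 * D.weight univ) := by
    have h1 : ∑ t : Fin L, (univ.filter fun ω : Fin L → Fin k × Fin (2 * q) → Fin K =>
        Ev ω t.val).card =
        ∑ ω : Fin L → Fin k × Fin (2 * q) → Fin K,
          (univ.filter fun t : Fin L => Ev ω t.val).card := by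
      simp only [card_filter]
      rw [sum_comm]
    have h2 : ∀ ω : Fin L → Fin k × Fin (2 * q) → Fin K,
        (univ.filter fun t : Fin L => Ev ω t.val).card ≤ 2 * D.weight univ := by
      intro ω
      refine le_trans ?_ (hEv ω)
      refine card_le_card_of_injOn (fun t : Fin L => t.val) ?_ ?_
      · intro t ht
        rw [mem_coe] at ht ⊢
        exact mem_filter.2 ⟨mem_range.2 t.isLt, (mem_filter.1 ht).2⟩
      · intro t _ t' _ h
        exact Fin.ext h
    rw [h1]
    refine (sum_le_sum fun ω _ => h2 ω).trans (le_of_eq ?_)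
    rw [sum_const, card_univ, smul_eq_mul]
  -- one step
  have hstep : ∀ (ω : Fin L → Fin k × Fin (2 * q) → Fin K) (t : Fin L),
      (univ.filter fun p : Fin k → Fin (2 * q) =>
        D.Acc (pasg β ε (Function.update (stN ω t) t (OState.tr p)))).card * 2 ^ (l + 1) ≤
      (univ.filter fun p : Fin k → Fin (2 * q) =>
        D.Acc (pasg β ε (stN ω t))).card * 2 ^ (l + 1) +
      (s * (2 * q) ^ k + if S t ω then (2 * q) ^ k * 2 ^ (l + 1) else 0) := by
    intro ω t
    have h1' : (univ.filter fun p : Fin k → Fin (2 * q) =>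
        D.Acc (pasg β ε (Function.update (stN ω t) t (OState.tr p)))).card ≤
        (univ.filter fun p : Fin k → Fin (2 * q) => D.Acc (pasg β ε (stN ω t))).card +
        (univ.filter fun p : Fin k → Fin (2 * q) =>
          D.Acc (pasg β ε (Function.update (stN ω t) t (OState.tr p))) ∧
          ¬ D.Acc (pasg β ε (stN ω t))).card := by
      refine (card_le_card ?_).trans (card_union_le _ _)
      intro c hc
      have hc' := (mem_filter.1 hc).2
      by_cases h : D.Acc (pasg β ε (stN ω t))
      · exact mem_union_left _ (mem_filter.2 ⟨mem_univ _, h⟩)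
      · exact mem_union_right _ (mem_filter.2 ⟨mem_univ _, hc', h⟩)
    have h3' : (univ.filter fun p : Fin k → Fin (2 * q) =>
          D.Acc (pasg β ε (Function.update (stN ω t) t (OState.tr p))) ∧
          ¬ D.Acc (pasg β ε (stN ω t))).card * 2 ^ (l + 1) ≤
        s * (2 * q) ^ k + if S t ω then (2 * q) ^ k * 2 ^ (l + 1) else 0 := by
      rcases gap_step D hβ hε l hq hl h1 h3 (stN ω t) t (stN_self ω t) with h | h
      · exact h.trans (Nat.le_add_right _ _)
      · have hSt : S t ω := by
          rw [hSdef]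
          refine h.trans (Nat.mul_le_mul_left _ (card_le_card ?_))
          intro ω' hω'
          obtain ⟨-, hω2⟩ := mem_filter.1 hω'
          refine mem_filter.2 ⟨mem_univ _, ?_⟩
          show D.Changes (pasg β ε (stN (Function.update ω t ω') t.val))
            (pasg β ε (stN (Function.update ω t ω') (t.val + 1)))
          rw [stN_succ, stN_update, Function.update_self]
          exact hω2
        rw [if_pos hSt]
        have h5 : (univ.filter fun p : Fin k → Fin (2 * q) =>
          D.Acc (pasg β ε (Function.update (stN ω t) t (OState.tr p))) ∧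
          ¬ D.Acc (pasg β ε (stN ω t))).card ≤ (2 * q) ^ k := by
          refine (card_filter_le _ _).trans ?_
          rw [card_univ, Fintype.card_fun, Fintype.card_fin, Fintype.card_fin]
        exact (Nat.mul_le_mul_right _ h5).trans (Nat.le_add_left _ _)
    calc _ ≤ _ := Nat.mul_le_mul_right _ h1'
      _ = _ := add_mul _ _ _
      _ ≤ _ := Nat.add_le_add_left h3' _
  -- sum over everything
  have hsum : ∀ Q : (Fin L → Fin k × Fin (2 * q) → Fin K) × Fin L ×
        (Fin k → Fin (2 * q)) → Prop,
      (univ.filter Q).card = ∑ ω : Fin L → Fin k × Fin (2 * q) → Fin K, ∑ t : Fin L,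
        (univ.filter fun p : Fin k → Fin (2 * q) => Q (ω, t, p)).card := by
    intro Q
    simp only [card_filter]
    rw [Fintype.sum_prod_type]
    refine sum_congr rfl fun ω _ => ?_
    rw [Fintype.sum_prod_type]
  rw [hsum, hsum, sum_mul, sum_mul]
  have h1' : ∑ ω : Fin L → Fin k × Fin (2 * q) → Fin K, (∑ t : Fin L,
      (univ.filter fun p : Fin k → Fin (2 * q) =>
        D.Acc (pasg β ε (Function.update (stN ω t) t (OState.tr p)))).card) * 2 ^ (l + 1) ≤
      ∑ ω : Fin L → Fin k × Fin (2 * q) → Fin K, ((∑ t : Fin L,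
        (univ.filter fun p : Fin k → Fin (2 * q) =>
          D.Acc (pasg β ε (stN ω t))).card) * 2 ^ (l + 1) +
        ∑ t : Fin L, (s * (2 * q) ^ k + if S t ω then (2 * q) ^ k * 2 ^ (l + 1) else 0)) := by
    refine sum_le_sum fun ω _ => ?_
    rw [sum_mul, sum_mul, ← sum_add_distrib]
    exact sum_le_sum fun t _ => hstep ω t
  refine h1'.trans ?_
  rw [sum_add_distrib]
  refine Nat.add_le_add_left ?_ _
  have h3' : ∑ ω : Fin L → Fin k × Fin (2 * q) → Fin K, ∑ t : Fin L,
      (s * (2 * q) ^ k + if S t ω then (2 * q) ^ k * 2 ^ (l + 1) else 0) =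
      Fintype.card (Fin L → Fin k × Fin (2 * q) → Fin K) * (L * (s * (2 * q) ^ k)) +
      (∑ t : Fin L, (univ.filter (S t)).card) * ((2 * q) ^ k * 2 ^ (l + 1)) := by
    simp only [sum_add_distrib, sum_const, card_univ, smul_eq_mul, Fintype.card_fin]
    congr 1
    rw [sum_comm, sum_mul]
    refine sum_congr rfl fun t _ => ?_
    rw [card_filter, sum_mul]
    refine sum_congr rfl fun ω _ => ?_
    split_ifs
    · rw [one_mul]
    · rw [zero_mul]
  rw [h3']
  have h4 : ∑ t : Fin L, (univ.filter (S t)).card ≤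
      4 * (Fintype.card (Fin L → Fin k × Fin (2 * q) → Fin K) * (2 * D.weight univ)) := by
    refine (sum_le_sum fun t _ => hS t).trans ?_
    rw [← mul_sum]
    exact Nat.mul_le_mul_left _ hEv'
  calc Fintype.card (Fin L → Fin k × Fin (2 * q) → Fin K) * (L * (s * (2 * q) ^ k)) +
      (∑ t : Fin L, (univ.filter (S t)).card) * ((2 * q) ^ k * 2 ^ (l + 1))
      ≤ Fintype.card (Fin L → Fin k × Fin (2 * q) → Fin K) * (L * (s * (2 * q) ^ k)) +
      (4 * (Fintype.card (Fin L → Fin k × Fin (2 * q) → Fin K) * (2 * D.weight univ))) *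
        ((2 * q) ^ k * 2 ^ (l + 1)) :=
        Nat.add_le_add_left (Nat.mul_le_mul_right _ h4) _
    _ = _ := by ring

end Pool.Agent.CliqueModules
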