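import Pool.Agent.Lib.MP_0a1b52_lc_RND.Defs

/-!
Circuits which distinguish graphs with a large clique from graphs with smaller cliques.
-/

namespace Pool.Agent.CliqueModules

/-- All cliques of the graph `G` on `Fin n` have at most `√n - d` vertices. -/
def CliquesAtMost {n : ℕ} (G : SimpleGraph (Fin n)) (d : ℕ) : Prop :=
  ∀ K : Finset (Fin n), G.IsClique (K : Set (Fin n)) → (K.card : ℝ) ≤ Real.sqrt n - d

end Pool.Agent.CliqueModules
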