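import Pool.Agent.Lib.MP_0a1b52_lc_GAP.CoreG

/-!
The two families of graphs.
-/

namespace Pool.Agent.CliqueModules

open Finset
open Pool.Agent.CliqueCircuits (InTy trans OState stN stN_succ stN_congr Det)

variable {n k q m K t f s L : ℕ} {B : Type}

theorem cliquesAtMost_of_card {G : SimpleGraph (Fin n)} {d : ℕ}
    (h : ∀ S : Finset (Fin n), G.IsClique (S : Set (Fin n)) → S.card + d ≤ Nat.sqrt n) :
    CliquesAtMost G d := by
  intro S hS
  have h4 := h S hS
  have h5 : ((S.card + d : ℕ) : ℝ) ≤ Real.sqrt n := by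
    apply Real.le_sqrt_of_sq_le
    have h6 : (S.card + d) * (S.card + d) ≤ n :=
      (Nat.mul_le_mul h4 h4).trans (Nat.sqrt_le n)
    have h7 : (((S.card + d) * (S.card + d) : ℕ) : ℝ) ≤ n := by exact_mod_cast h6
    calc ((S.card + d : ℕ) : ℝ) ^ 2 = (((S.card + d) * (S.card + d) : ℕ) : ℝ) := by
          push_cast; ring
      _ ≤ n := h7
  push_cast at h5
  linarith

theorem cliquesAtMost_of [Fintype B] {β : Fin L → Fin k × Fin m → B}
    {ε : (B × Fin t) ⊕ Fin f → Fin n} (hε : Function.Injective ε) (ht : 1 ≤ t) {g d : ℕ}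
    (hg1 : 1 ≤ g) (hG : f + g * t + d ≤ Nat.sqrt n) {c : Fin L → Fin k × Fin m → Fin K}
    (hc : ¬ ∃ Q : Finset B, Q.card = g ∧ BCl β Q c) (w : ℕ) :
    CliquesAtMost (PG β ε (stN c w)) d := by
  classical
  apply cliquesAtMost_of_card
  intro S hS
  by_contra hcon
  push Not at hcon
  obtain ⟨Q, hQ, hQadj⟩ := PG_project hε hg1 ht hS (by omega)
  apply hc
  refine ⟨Q, hQ, ?_⟩
  intro x hx x' hx' hne
  obtain ⟨j, y, y', h5, h6, h7⟩ := hQadj x hx x' hx' hne
  exact ⟨j, y, y', h5, h6, (stN_le c w j y y' h7).2⟩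

open Classical in
theorem acceptProb_equiv (D : Circuit (EdgeVar n) s) {I : Type} [Fintype I]
    (G : I → SimpleGraph (Fin n)) (e : Fin (Fintype.card I) ≃ I) :
    D.acceptProb (fun k => G (e k)) =
      ((univ.filter fun i : I => D.Accepts (G i)).card : ℝ) / (Fintype.card I : ℕ) := by
  have hcnt : (univ.filter fun k : Fin (Fintype.card I) => D.Accepts (G (e k))).card =
      (univ.filter fun i : I => D.Accepts (G i)).card := by
    refine card_bij (fun k _ => e k) ?_ ?_ ?_
    · intro k hk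
      exact mem_filter.2 ⟨mem_univ _, (mem_filter.1 hk).2⟩
    · intro k _ k' _ h
      exact e.injective h
    · intro i hi
      refine ⟨e.symm i, mem_filter.2 ⟨mem_univ _, ?_⟩, e.apply_symm_apply i⟩
      rw [e.apply_symm_apply]
      exact (mem_filter.1 hi).2
  exact congrArg (fun z : ℕ => (z : ℝ) / (Fintype.card I : ℕ)) hcnt

open Classical in
/-- Two families of graphs on which every small circuit has a small advantage. -/
theorem families_gap [Nonempty (EdgeVar n)] [Fintype B]
    {β : Fin L → Fin k × Fin (2 * q) → B} (hβ : Linear β) {ε : (B × Fin t) ⊕ Fin f → Fin n}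
    (hε : Function.Injective ε) (hkt : Nat.sqrt n + 1 ≤ k * t + f) (ht : 1 ≤ t) (hL : 1 ≤ L)
    (l : ℕ) (hq : 1 ≤ q) (hl : 2 ≤ l) (h3 : 8 * (l * l) ≤ K) (g a M d : ℕ) (hg1 : 1 ≤ g)
    (hB : Fintype.card B ≤ 2 ^ a) (hM : a * g + (l + 1) ≤ M) (hg : K * M * (K * K) + g ≤ g * g)
    (hG : f + g * t + d ≤ Nat.sqrt n) :
    ∃ (N N' : ℕ) (P : Fin N → SimpleGraph (Fin n)) (Q : Fin N' → SimpleGraph (Fin n)),
      0 < N ∧ 0 < N' ∧ (∀ i, HasClique (P i)) ∧ (∀ i, CliquesAtMost (Q i) d) ∧
      ∀ (s : ℕ) (D : Circuit (EdgeVar n) s), 8 * (s * (l * l) ^ (q + 1)) ≤ K ^ (q + 1) →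
      (D.acceptProb P - D.acceptProb Q) * (L * 2 ^ (l + 1)) ≤
        8 * D.weight univ * 2 ^ (l + 1) + L * (s + 1) := by
  have hK : 1 ≤ K := by nlinarith
  set X := Fin L → Fin k × Fin (2 * q) → Fin K with hX
  set I := X × Fin L × (Fin k → Fin (2 * q)) with hI
  let Bad : X → Prop := fun c => ∃ Q : Finset B, Q.card = g ∧ BCl β Q c
  set I' := {i : I // ¬ Bad i.1} with hI'
  set G1 : I → SimpleGraph (Fin n) := fun i =>
    PG β ε (Function.update (stN i.1 i.2.1) i.2.1 (OState.tr i.2.2)) with hG1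
  set G2 : I → SimpleGraph (Fin n) := fun i => PG β ε (stN i.1 i.2.1) with hG2
  have hXc : Fintype.card X = (K ^ (k * (2 * q))) ^ L := by
    show Fintype.card (Fin L → Fin k × Fin (2 * q) → Fin K) = _
    rw [Fintype.card_fun, Fintype.card_fun, Fintype.card_prod, Fintype.card_fin,
      Fintype.card_fin, Fintype.card_fin, Fintype.card_fin]
  have hXpos : 0 < Fintype.card X := by
    rw [hXc]; exact pow_pos (pow_pos hK _) _
  have hIc : Fintype.card I = Fintype.card X * (L * (2 * q) ^ k) := by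
    show Fintype.card (X × Fin L × (Fin k → Fin (2 * q))) = _
    rw [Fintype.card_prod, Fintype.card_prod, Fintype.card_fin,
      Fintype.card_fun (α := Fin k), Fintype.card_fin, Fintype.card_fin]
  have hLq : 0 < L * (2 * q) ^ k := Nat.mul_pos hL (pow_pos (by omega) _)
  have hIpos : 0 < Fintype.card I := by
    rw [hIc]; exact Nat.mul_pos hXpos hLq
  -- the bad indices
  have hbad : 2 ^ (l + 1) * (univ.filter Bad).card ≤ Fintype.card X := by
    rw [hXc]
    exact card_bad hβ hK g a (l + 1) M hB hM hg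
  have hBc : (univ.filter fun i : I => Bad i.1).card = (univ.filter Bad).card *
      (L * (2 * q) ^ k) := by
    have h1 : (univ.filter fun i : I => Bad i.1) =
        (univ.filter Bad) ×ˢ (univ : Finset (Fin L × (Fin k → Fin (2 * q)))) := by
      ext i
      rw [mem_filter, mem_product, mem_filter]
      simp
    rw [h1, card_product, card_univ, Fintype.card_prod, Fintype.card_fin,
      Fintype.card_fun (α := Fin k), Fintype.card_fin, Fintype.card_fin]
  have hbadI : 2 ^ (l + 1) * (univ.filter fun i : I => Bad i.1).card ≤ Fintype.card I := by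
    rw [hBc, hIc, ← mul_assoc]
    exact Nat.mul_le_mul_right _ hbad
  have hI'c : Fintype.card I' + (univ.filter fun i : I => Bad i.1).card = Fintype.card I := by
    have h1 : Fintype.card I' = (univ.filter fun i : I => ¬ Bad i.1).card := by
      exact Fintype.card_subtype _
    rw [h1, add_comm, ← card_univ (α := I)]
    exact card_filter_add_card_filter_not (s := (univ : Finset I)) _
  have hI'pos : 0 < Fintype.card I' := by
    have h1 : 2 * (univ.filter fun i : I => Bad i.1).card ≤ Fintype.card I := by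
      refine le_trans (Nat.mul_le_mul_right _ ?_) hbadI
      calc 2 = 2 ^ 1 := by norm_num
        _ ≤ 2 ^ (l + 1) := Nat.pow_le_pow_right (by norm_num) (by omega)
    omega
  let e : Fin (Fintype.card I) ≃ I := (Fintype.equivFin I).symm
  let e' : Fin (Fintype.card I') ≃ I' := (Fintype.equivFin I').symm
  refine ⟨Fintype.card I, Fintype.card I', fun k => G1 (e k), fun k => G2 (e' k).1, hIpos,
    hI'pos, ?_, ?_, ?_⟩
  · intro k
    rw [hasClique_iff]
    obtain ⟨S, hS, hSc⟩ := PG_clique hβ hε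
      (st := Function.update (stN (e k).1 (e k).2.1) (e k).2.1 (OState.tr (e k).2.2))
      (j := (e k).2.1) (p := (e k).2.2) (Function.update_self _ _ _)
    exact ⟨S, hS, by rw [hSc]; exact hkt⟩
  · intro k
    exact cliquesAtMost_of hε ht hg1 hG (e' k).2 _
  · intro s D h1
    have hcore := core_gap D hβ hε l hq hl h1 h3
    have hP := acceptProb_equiv D G1 e
    have hQ := acceptProb_equiv D (fun i : I' => G2 i.1) e'
    rw [hP, hQ]
    set a1 := (univ.filter fun i : I => D.Accepts (G1 i)).card with ha1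
    set a2 := (univ.filter fun i : I => D.Accepts (G2 i)).card with ha2
    set a3 := (univ.filter fun i : I' => D.Accepts (G2 i.1)).card with ha3
    set bd := (univ.filter fun i : I => Bad i.1).card with hbd
    have hcore' : a1 * 2 ^ (l + 1) ≤ a2 * 2 ^ (l + 1) + Fintype.card X * (2 * q) ^ k *
      (8 * D.weight univ * 2 ^ (l + 1) + L * s) := hcore
    have h23 : a2 ≤ a3 + bd := by
      have h4 : (univ.filter fun i : I => D.Accepts (G2 i)) ⊆
          ((univ.filter fun i : I' => D.Accepts (G2 i.1)).map (Function.Embedding.subtype _)) ∪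
            (univ.filter fun i : I => Bad i.1) := by
        intro i hi
        have hi' := (mem_filter.1 hi).2
        by_cases hb : Bad i.1
        · exact mem_union_right _ (mem_filter.2 ⟨mem_univ _, hb⟩)
        · exact mem_union_left _ (mem_map.2 ⟨⟨i, hb⟩, mem_filter.2 ⟨mem_univ _, hi'⟩, rfl⟩)
      have h5 := (card_le_card h4).trans (card_union_le _ _)
      rwa [card_map] at h5
    have hIR : (0 : ℝ) < (Fintype.card I : ℕ) := by exact_mod_cast hIpos
    have hI'R : (0 : ℝ) < (Fintype.card I' : ℕ) := by exact_mod_cast hI'pos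
    have hII' : ((Fintype.card I' : ℕ) : ℝ) ≤ (Fintype.card I : ℕ) := by
      exact_mod_cast (by omega : Fintype.card I' ≤ Fintype.card I)
    have h6 : (a3 : ℝ) / (Fintype.card I : ℕ) ≤ (a3 : ℝ) / (Fintype.card I' : ℕ) :=
      div_le_div_of_nonneg_left (Nat.cast_nonneg _) hI'R hII'
    have h7 : (a1 : ℝ) / (Fintype.card I : ℕ) - (a3 : ℝ) / (Fintype.card I' : ℕ) ≤
        ((a1 : ℝ) - a3) / (Fintype.card I : ℕ) := by
      rw [sub_div]; linarith
    have h2l : (0 : ℝ) < 2 ^ (l + 1) := pow_pos (by norm_num) _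
    refine (mul_le_mul_of_nonneg_right h7 (mul_nonneg (Nat.cast_nonneg L) h2l.le)).trans ?_
    rw [div_mul_eq_mul_div, div_le_iff₀ hIR]
    have hcoreR : (a1 : ℝ) * 2 ^ (l + 1) ≤ a2 * 2 ^ (l + 1) + (Fintype.card X : ℕ) *
        (2 * q) ^ k * (8 * D.weight univ * 2 ^ (l + 1) + L * s) := by
      exact_mod_cast hcore'
    have h23R : (a2 : ℝ) ≤ a3 + bd := by exact_mod_cast h23
    have hbdR : (2 : ℝ) ^ (l + 1) * bd ≤ (Fintype.card X : ℕ) * (L * (2 * q) ^ k) := by
      rw [hIc] at hbadI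
      exact_mod_cast hbadI
    have hIcR : ((Fintype.card I : ℕ) : ℝ) =
        (Fintype.card X : ℕ) * (L * (2 * (q : ℝ)) ^ k) := by
      exact_mod_cast hIc
    have hLR : (0 : ℝ) ≤ L := Nat.cast_nonneg L
    have h8 : ((a1 : ℝ) - a3) * 2 ^ (l + 1) ≤ (Fintype.card X : ℕ) *
        (2 * q) ^ k * (8 * D.weight univ * 2 ^ (l + 1) + L * s) +
        (Fintype.card X : ℕ) * (L * (2 * q) ^ k) := by
      have h9 : (a2 : ℝ) * 2 ^ (l + 1) ≤ (a3 + bd) * 2 ^ (l + 1) :=
        mul_le_mul_of_nonneg_right h23R h2l.le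
      nlinarith
    calc ((a1 : ℝ) - a3) * (L * 2 ^ (l + 1)) = L * (((a1 : ℝ) - a3) * 2 ^ (l + 1)) := by ring
      _ ≤ L * ((Fintype.card X : ℕ) *
        (2 * q) ^ k * (8 * D.weight univ * 2 ^ (l + 1) + L * s) +
        (Fintype.card X : ℕ) * (L * (2 * q) ^ k)) := mul_le_mul_of_nonneg_left h8 hLR
      _ = (8 * D.weight univ * 2 ^ (l + 1) + L * (s + 1)) * (Fintype.card I : ℕ) := by
          rw [hIcR]; ring

end Pool.Agent.CliqueModules
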