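import Pool.Agent.Lib.MP_0a1b52_lc_GAP.Conv
import Pool.Agent.Lib.MP_0a1b52_lc.OrChain

/-!
Graphs which are unions of coloured graphs on the lines of a partial linear space, in which every
point is blown up to a clique, joined to a fixed clique.
-/

namespace Pool.Agent.CliqueModules

open Finset
open Pool.Agent.CliqueCircuits (InTy trans OState stN)

variable {n k m K t f : ℕ} {B Λ : Type}

theorem orel_symm (b : OState k m K) (u v : Fin k × Fin m) : b.rel u v ↔ b.rel v u := by
  cases b with
  | zero => exact Iff.rfl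
  | tr p => exact And.comm
  | col c => exact ne_comm

/-- Two lines share at most one point. -/
def Linear (β : Λ → Fin k × Fin m → B) : Prop :=
  (∀ j, Function.Injective (β j)) ∧
    ∀ j j' u v u' v', β j u = β j' u' → β j v = β j' v' → u ≠ v → j = j'

/-- adjacency of (different) points -/
def BAdj (β : Λ → Fin k × Fin m → B) (st : Λ → OState k m K) (x x' : B) : Prop :=
  ∃ j u v, β j u = x ∧ β j v = x' ∧ (st j).rel u v

/-- adjacency of (different) vertices: copies `(x, i)` of points `x`, and vertices of the fixed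
clique -/
def VAdj (β : Λ → Fin k × Fin m → B) (st : Λ → OState k m K) :
    (B × Fin t) ⊕ Fin f → (B × Fin t) ⊕ Fin f → Prop
  | .inl y, .inl y' => y.1 = y'.1 ∨ BAdj β st y.1 y'.1
  | .inl _, .inr _ => True
  | .inr _, .inl _ => True
  | .inr _, .inr _ => True

theorem VAdj_symm (β : Λ → Fin k × Fin m → B) (st : Λ → OState k m K)
    (y y' : (B × Fin t) ⊕ Fin f) : VAdj β st y y' → VAdj β st y' y := by
  rcases y with y | y <;> rcases y' with y' | y'
  · rintro (h | ⟨j, u, v, h4, h5, h6⟩)
    · exact Or.inl h.symm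
    · exact Or.inr ⟨j, v, u, h5, h4, (orel_symm _ _ _).1 h6⟩
  · exact id
  · exact id
  · exact id

/-- The graph given by the states of the lines. -/
def PG (β : Λ → Fin k × Fin m → B) (ε : (B × Fin t) ⊕ Fin f → Fin n) (st : Λ → OState k m K) :
    SimpleGraph (Fin n) where
  Adj a a' := a ≠ a' ∧ ∃ y y', ε y = a ∧ ε y' = a' ∧ VAdj β st y y'
  symm := ⟨by
    rintro a a' ⟨h, y, y', h1, h2, h3⟩
    exact ⟨h.symm, y', y, h2, h1, VAdj_symm β st _ _ h3⟩⟩
  loopless := ⟨fun _ h => h.1 rfl⟩

theorem PG_mono {β : Λ → Fin k × Fin m → B} {ε : (B × Fin t) ⊕ Fin f → Fin n}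
    {st st' : Λ → OState k m K}
    (h : ∀ j u v, (st j).rel u v → (st' j).rel u v) (a a' : Fin n) :
    (PG β ε st).Adj a a' → (PG β ε st').Adj a a' := by
  rintro ⟨hne, y, y', h1, h2, h3⟩
  refine ⟨hne, y, y', h1, h2, ?_⟩
  rcases y with y | y <;> rcases y' with y' | y'
  · rcases h3 with h3 | ⟨j, u, v, h4, h5, h6⟩
    · exact Or.inl h3
    · exact Or.inr ⟨j, u, v, h4, h5, h _ _ _ h6⟩
  · exact trivial
  · exact trivial
  · exact trivial

/-- the assignment of the edge variables -/
def pasg (β : Λ → Fin k × Fin m → B) (ε : (B × Fin t) ⊕ Fin f → Fin n)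
    (st : Λ → OState k m K) : EdgeVar n → Prop := fun e => (PG β ε st).Adj e.1.1 e.1.2

/-- A planted transversal gives a large clique. -/
theorem PG_clique {β : Λ → Fin k × Fin m → B} (hβ : Linear β)
    {ε : (B × Fin t) ⊕ Fin f → Fin n}
    (hε : Function.Injective ε) {st : Λ → OState k m K} {j : Λ} {p : Fin k → Fin m}
    (hj : st j = OState.tr p) :
    ∃ S : Finset (Fin n), (PG β ε st).IsClique (S : Set (Fin n)) ∧ S.card = k * t + f := by
  classical
  let φ : (Fin k × Fin t) ⊕ Fin f → (B × Fin t) ⊕ Fin f :=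
    Sum.map (fun y => (β j (y.1, p y.1), y.2)) id
  have hφ : Function.Injective φ := by
    apply Function.Injective.sumMap _ Function.injective_id
    intro y y' h
    rw [Prod.mk.injEq] at h
    have h2 := hβ.1 j h.1
    rw [Prod.mk.injEq] at h2
    exact Prod.ext h2.1 h.2
  refine ⟨(univ : Finset ((Fin k × Fin t) ⊕ Fin f)).image (fun y => ε (φ y)), ?_, ?_⟩
  · intro a ha a' ha' hne
    simp only [coe_image, coe_univ, Set.image_univ, Set.mem_range] at ha ha'
    obtain ⟨y, rfl⟩ := ha
    obtain ⟨y', rfl⟩ := ha'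
    refine ⟨hne, _, _, rfl, rfl, ?_⟩
    rcases y with y | y <;> rcases y' with y' | y'
    · right
      refine ⟨j, _, _, rfl, rfl, ?_⟩
      rw [hj]
      exact ⟨rfl, rfl⟩
    · exact trivial
    · exact trivial
    · exact trivial
  · rw [card_image_of_injective _
      (show Function.Injective (fun y => ε (φ y)) from hε.comp hφ)]
    simp

/-- A clique of the blown up graph projects to a clique of points. -/
theorem PG_project [DecidableEq B] {β : Λ → Fin k × Fin m → B}
    {ε : (B × Fin t) ⊕ Fin f → Fin n}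
    (hε : Function.Injective ε) {st : Λ → OState k m K} {g : ℕ} (hg : 1 ≤ g) (ht : 1 ≤ t)
    {S : Finset (Fin n)}
    (hS : (PG β ε st).IsClique (S : Set (Fin n))) (hc : f + g * t + 1 ≤ S.card) :
    ∃ Q : Finset B, Q.card = g ∧ ∀ x ∈ Q, ∀ x' ∈ Q, x ≠ x' → BAdj β st x x' := by
  classical
  -- every vertex of the clique is in the range of `ε`
  have hrange : ∀ a ∈ S, ∃ y, ε y = a := by
    intro a ha
    have h2 : 1 < S.card := by
      have : 1 * 1 ≤ g * t := Nat.mul_le_mul hg ht
      omega
    obtain ⟨a', ha', hne⟩ := exists_mem_ne h2 a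
    obtain ⟨_, y, y', h1, _⟩ := hS ha ha' hne.symm
    exact ⟨y, h1⟩
  let pr : Fin n → Finset B := fun a =>
    if h : ∃ y : B × Fin t, ε (.inl y) = a then {h.choose.1} else ∅
  have hpr : ∀ y : B × Fin t, pr (ε (.inl y)) = {y.1} := by
    intro y
    have h : ∃ y' : B × Fin t, ε (.inl y') = ε (.inl y) := ⟨y, rfl⟩
    have h1 : pr (ε (.inl y)) = {h.choose.1} := dif_pos h
    rw [h1]
    congr 1
    exact congrArg Prod.fst (Sum.inl_injective (hε h.choose_spec))
  set Q0 : Finset B := S.biUnion pr with hQ0
  have hQ : ∀ y : B × Fin t, ε (.inl y) ∈ S → y.1 ∈ Q0 := by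
    intro y hy
    rw [hQ0, mem_biUnion]
    exact ⟨ε (.inl y), hy, by rw [hpr]; exact mem_singleton_self _⟩
  have hQ' : ∀ x ∈ Q0, ∃ i, ε (.inl (x, i)) ∈ S := by
    intro x hx
    rw [hQ0, mem_biUnion] at hx
    obtain ⟨a, ha, hx⟩ := hx
    obtain ⟨y, rfl⟩ := hrange a ha
    rcases y with y | y
    · rw [hpr, mem_singleton] at hx
      subst hx
      exact ⟨y.2, ha⟩
    · exfalso
      have h : ¬ ∃ y' : B × Fin t, ε (.inl y') = ε (.inr y) := by
        rintro ⟨y', h⟩
        exact absurd (hε h) (by simp)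
      have h1 : pr (ε (.inr y)) = ∅ := dif_neg h
      rw [h1] at hx
      exact absurd hx (notMem_empty _)
  have hcard : S.card ≤ f + Q0.card * t := by
    have h1 : S ⊆ (univ : Finset (Fin f)).image (fun i => ε (.inr i)) ∪
        (Q0 ×ˢ (univ : Finset (Fin t))).image (fun y => ε (.inl y)) := by
      intro a ha
      obtain ⟨y, rfl⟩ := hrange a ha
      rw [mem_union, mem_image, mem_image]
      rcases y with y | y
      · right
        exact ⟨y, by simp [hQ y ha], rfl⟩
      · left
        exact ⟨y, mem_univ _, rfl⟩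
    refine (card_le_card h1).trans ((card_union_le _ _).trans (Nat.add_le_add ?_ ?_))
    · refine card_image_le.trans ?_
      simp
    · refine card_image_le.trans ?_
      simp
  have hgQ : g ≤ Q0.card := by
    by_contra hcon
    push Not at hcon
    have : Q0.card * t ≤ g * t := Nat.mul_le_mul_right _ hcon.le
    omega
  obtain ⟨Q, hQQ, hQc⟩ := exists_subset_card_eq hgQ
  refine ⟨Q, hQc, ?_⟩
  intro x hx x' hx' hne
  obtain ⟨i, hi⟩ := hQ' x (hQQ hx)
  obtain ⟨i', hi'⟩ := hQ' x' (hQQ hx')
  have hne' : ε (.inl (x, i)) ≠ ε (.inl (x', i')) := by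
    intro h
    exact hne (congrArg Prod.fst (Sum.inl_injective (hε h)))
  obtain ⟨_, y, y', h1, h2, h3⟩ := hS hi hi' hne'
  have e1 := hε h1
  have e2 := hε h2
  subst e1
  subst e2
  rcases h3 with h3 | h3
  · exact absurd h3 hne
  · exact h3

/-- How the edge variables depend on the state of one line. -/
theorem PG_type [DecidableEq Λ] {β : Λ → Fin k × Fin m → B} (hβ : Linear β)
    {ε : (B × Fin t) ⊕ Fin f → Fin n} (hε : Function.Injective ε) (st : Λ → OState k m K) (j : Λ)
    (hj : st j = OState.zero) :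
    ∃ τ : EdgeVar n → InTy (Fin k × Fin m),
      (∀ v u u', τ v = InTy.pair u u' → u ≠ u') ∧
      (∀ p v, (τ v).pos p ↔ pasg β ε (Function.update st j (OState.tr p)) v) ∧
      (∀ c v, (τ v).neg c ↔ pasg β ε (Function.update st j (OState.col c)) v) := by
  classical
  let P : EdgeVar n → (Fin k × Fin m) × (Fin k × Fin m) → Prop := fun e y =>
    y.1 ≠ y.2 ∧ ∃ i i', ε (.inl (β j y.1, i)) = e.1.1 ∧ ε (.inl (β j y.2, i')) = e.1.2
  let τ : EdgeVar n → InTy (Fin k × Fin m) := fun e =>
    if h : ∃ y, P e y then InTy.pair h.choose.1 h.choose.2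
    else if pasg β ε st e then InTy.tt else InTy.ff
  -- adjacency inside the line
  have hin : ∀ (e : EdgeVar n) (y : (Fin k × Fin m) × (Fin k × Fin m)), P e y →
      ∀ s0 : OState k m K, pasg β ε (Function.update st j s0) e ↔ s0.rel y.1 y.2 := by
    rintro e y ⟨hne, i, i', h1, h2⟩ s0
    constructor
    · rintro ⟨_, z, z', h3, h4, h5⟩
      have e1 := hε (h3.trans h1.symm)
      have e2 := hε (h4.trans h2.symm)
      subst e1
      subst e2
      rcases h5 with h5 | ⟨j', u, v, h6, h7, h8⟩
      · exact absurd (hβ.1 j h5) hne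
      · have hjj : j = j' := hβ.2 j j' y.1 y.2 u v h6.symm h7.symm hne
        subst hjj
        have e3 := hβ.1 j h6
        have e4 := hβ.1 j h7
        subst e3
        subst e4
        rwa [Function.update_self] at h8
    · intro h
      refine ⟨?_, .inl (β j y.1, i), .inl (β j y.2, i'), h1, h2,
        Or.inr ⟨j, y.1, y.2, rfl, rfl, ?_⟩⟩
      · exact ne_of_lt e.2
      · rwa [Function.update_self]
  have hout : ∀ e : EdgeVar n, (¬ ∃ y, P e y) →
      ∀ s0 : OState k m K, pasg β ε (Function.update st j s0) e ↔ pasg β ε st e := by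
    intro e hno s0
    constructor
    · rintro ⟨hne, z, z', h3, h4, h5⟩
      refine ⟨hne, z, z', h3, h4, ?_⟩
      rcases z with z | z <;> rcases z' with z' | z'
      · rcases h5 with h5 | ⟨j', u, v, h6, h7, h8⟩
        · exact Or.inl h5
        · by_cases hjj : j' = j
          · subst hjj
            by_cases huv : u = v
            · subst huv
              exact Or.inl (h6.symm.trans h7)
            · exfalso
              apply hno
              refine ⟨(u, v), huv, z.2, z'.2, ?_, ?_⟩
              · show ε (.inl (β j' u, z.2)) = _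
                rw [h6]; exact h3
              · show ε (.inl (β j' v, z'.2)) = _
                rw [h7]; exact h4
          · rw [Function.update_of_ne hjj] at h8
            exact Or.inr ⟨j', u, v, h6, h7, h8⟩
      · exact trivial
      · exact trivial
      · exact trivial
    · rintro ⟨hne, z, z', h3, h4, h5⟩
      refine ⟨hne, z, z', h3, h4, ?_⟩
      rcases z with z | z <;> rcases z' with z' | z'
      · rcases h5 with h5 | ⟨j', u, v, h6, h7, h8⟩
        · exact Or.inl h5
        · by_cases hjj : j' = j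
          · subst hjj
            rw [hj] at h8
            exact absurd h8 id
          · refine Or.inr ⟨j', u, v, h6, h7, ?_⟩
            rwa [Function.update_of_ne hjj]
      · exact trivial
      · exact trivial
      · exact trivial
  have hτ1 : ∀ e (h : ∃ y, P e y), τ e = InTy.pair h.choose.1 h.choose.2 := by
    intro e h
    simp only [τ, dif_pos h]
  have hτ2 : ∀ e, (¬ ∃ y, P e y) → pasg β ε st e → τ e = InTy.tt := by
    intro e h h'
    simp only [τ, dif_neg h, if_pos h']
  have hτ3 : ∀ e, (¬ ∃ y, P e y) → ¬ pasg β ε st e → τ e = InTy.ff := by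
    intro e h h'
    simp only [τ, dif_neg h, if_neg h']
  refine ⟨τ, ?_, ?_, ?_⟩
  · intro e u u' h
    by_cases hP : ∃ y, P e y
    · rw [hτ1 e hP] at h
      injection h with h1 h2
      rw [← h1, ← h2]
      exact hP.choose_spec.1
    · by_cases ha : pasg β ε st e
      · rw [hτ2 e hP ha] at h; cases h
      · rw [hτ3 e hP ha] at h; cases h
  · intro p e
    by_cases hP : ∃ y, P e y
    · rw [hτ1 e hP, hin e hP.choose hP.choose_spec]
      exact Iff.rfl
    · rw [hout e hP]
      by_cases ha : pasg β ε st e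
      · rw [hτ2 e hP ha]; exact iff_of_true trivial ha
      · rw [hτ3 e hP ha]; exact iff_of_false id ha
  · intro c e
    by_cases hP : ∃ y, P e y
    · rw [hτ1 e hP, hin e hP.choose hP.choose_spec]
      exact Iff.rfl
    · rw [hout e hP]
      by_cases ha : pasg β ε st e
      · rw [hτ2 e hP ha]; exact iff_of_true trivial ha
      · rw [hτ3 e hP ha]; exact iff_of_false id ha

end Pool.Agent.CliqueModules
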