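import Pool.Agent.Lib.MP_0a1b52_lc_GAP.StepG
import Pool.Agent.Lib.MP_0a1b52_lc.Packing

/-!
For almost all choices of the colourings of the lines, the union of the coloured graphs has no
clique of polylogarithmic size.
-/

namespace Pool.Agent.CliqueModules

open Finset
open Pool.Agent.CliqueCircuits (InTy trans OState stN Det)

variable {n k m K t s L : ℕ} {B : Type}

open Classical in
theorem card_ne {U : Type} [Fintype U] [DecidableEq U] {K : ℕ} (u v : U) (huv : u ≠ v) :
    (univ.filter fun c : U → Fin K => c u ≠ c v).card * K ≤ K ^ Fintype.card U * (K - 1) := by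
  -- at least a fraction `1 / K` of the colourings has equal colours
  have h1 : K ^ Fintype.card U ≤ (univ.filter fun c : U → Fin K => c u = c v).card * K := by
    have h2 : (univ : Finset (U → Fin K)).card ≤
        ((univ.filter fun c : U → Fin K => c u = c v) ×ˢ (univ : Finset (Fin K))).card := by
      refine card_le_card_of_injOn (fun c => (Function.update c v (c u), c v)) ?_ ?_
      · intro c _
        simp only [coe_product, Set.mem_prod, coe_filter, mem_univ, true_and, Set.mem_ofPred_eq,
          coe_univ, Set.mem_univ, and_true]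
        rw [Function.update_self, Function.update_of_ne huv]
      · intro c _ c' _ h
        rw [Prod.mk.injEq] at h
        obtain ⟨h, h'⟩ := h
        funext w
        by_cases hw : w = v
        · subst hw; exact h'
        · have := congrFun h w
          rwa [Function.update_of_ne hw, Function.update_of_ne hw] at this
    rw [card_product, card_univ, card_univ, Fintype.card_fun, Fintype.card_fin] at h2
    exact h2
  have h3 : (univ.filter fun c : U → Fin K => c u = c v).card +
      (univ.filter fun c : U → Fin K => c u ≠ c v).card = K ^ Fintype.card U := by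
    have := card_filter_add_card_filter_not (s := (univ : Finset (U → Fin K)))
      (fun c : U → Fin K => c u = c v)
    rw [card_univ, Fintype.card_fun, Fintype.card_fin] at this
    exact this
  rcases Nat.eq_zero_or_pos K with hK | hK
  · subst hK; simp
  · obtain ⟨K', rfl⟩ : ∃ K', K = K' + 1 := ⟨K - 1, by omega⟩
    rw [Nat.add_sub_cancel]
    nlinarith

/-- the points of `Q` are pairwise adjacent when line `j` is coloured by `c j` -/
def BCl (β : Fin L → Fin k × Fin m → B) (Q : Finset B) (c : Fin L → Fin k × Fin m → Fin K) :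
    Prop :=
  ∀ x ∈ Q, ∀ x' ∈ Q, x ≠ x' → ∃ j u v, β j u = x ∧ β j v = x' ∧ c j u ≠ c j v

open Classical in
theorem card_BCl {β : Fin L → Fin k × Fin m → B} (hβ : Linear β) (hK : 0 < K) (Q : Finset B)
    (N : ℕ) (hN : N * (K * K) + Q.card ≤ Q.card * Q.card) :
    (univ.filter fun c : Fin L → Fin k × Fin m → Fin K => BCl β Q c).card * K ^ N ≤
      (K ^ (k * m)) ^ L * (K - 1) ^ N := by
  by_cases hex : ∃ c0 : Fin L → Fin k × Fin m → Fin K, BCl β Q c0
  swap
  · push Not at hex
    have : (univ.filter fun c : Fin L → Fin k × Fin m → Fin K => BCl β Q c) = ∅ := by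
      rw [filter_eq_empty_iff]
      intro c _
      exact hex c
    rw [this]
    simp
  obtain ⟨c0, hc0⟩ := hex
  -- colourings which make `Q` a clique are rainbow on the pairs of `Q` on a line
  have hrain : ∀ c : Fin L → Fin k × Fin m → Fin K, BCl β Q c → ∀ j u v, u ≠ v → β j u ∈ Q →
      β j v ∈ Q → c j u ≠ c j v := by
    intro c hc j u v huv hu hv
    obtain ⟨j', u', v', h1, h2, h3⟩ := hc _ hu _ hv (fun h => huv (hβ.1 j h))
    have hjj := hβ.2 j j' u v u' v' h1.symm h2.symm huv
    subst hjj
    have e1 := hβ.1 j h1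
    have e2 := hβ.1 j h2
    subst e1
    subst e2
    exact h3
  set J : Finset (Fin L) := univ.filter fun j => ∃ u v, u ≠ v ∧ β j u ∈ Q ∧ β j v ∈ Q with hJ
  set S : Fin L → Finset (Fin k × Fin m) := fun j => univ.filter fun u => β j u ∈ Q with hS
  have hSK : ∀ j, (S j).card ≤ K := by
    intro j
    have h1 : (S j).card ≤ (univ : Finset (Fin K)).card := by
      refine card_le_card_of_injOn (c0 j) (by simp) ?_
      intro u hu v hv huv
      simp only [hS, coe_filter, mem_univ, true_and, Set.mem_ofPred_eq] at hu hv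
      by_contra hne
      exact hrain c0 hc0 j u v hne hu hv huv
    simpa using h1
  have hcover : Q.offDiag ⊆ J.biUnion fun j =>
      (S j ×ˢ S j).image fun e => (β j e.1, β j e.2) := by
    rintro ⟨x, x'⟩ hx
    rw [mem_offDiag] at hx
    obtain ⟨j, u, v, h1, h2, h3⟩ := hc0 x hx.1 x' hx.2.1 hx.2.2
    simp only [mem_biUnion, mem_image, mem_product, hJ, hS, mem_filter, mem_univ, true_and]
    have huv : u ≠ v := fun h => h3 (by rw [h])
    have hu : β j u ∈ Q := by rw [h1]; exact hx.1
    have hv : β j v ∈ Q := by rw [h2]; exact hx.2.1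
    exact ⟨j, ⟨u, v, huv, hu, hv⟩, (u, v), ⟨hu, hv⟩, by rw [h1, h2]⟩
  have hcount : Q.card * Q.card - Q.card ≤ J.card * (K * K) := by
    rw [← offDiag_card]
    refine (card_le_card hcover).trans (card_biUnion_le_card_mul _ _ _ ?_)
    intro j _
    refine card_image_le.trans ?_
    rw [card_product]
    exact Nat.mul_le_mul (hSK j) (hSK j)
  have hNJ : N ≤ J.card := by
    have h1 : N * (K * K) ≤ J.card * (K * K) := by omega
    exact Nat.le_of_mul_le_mul_right h1 (Nat.mul_pos hK hK)
  obtain ⟨J', hJJ, hJc⟩ := exists_subset_card_eq hNJ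
  have hpair : ∀ j : Fin L, j ∈ J' → ∃ u v, u ≠ v ∧ β j u ∈ Q ∧ β j v ∈ Q := by
    intro j hj
    have := hJJ hj
    rw [hJ, mem_filter] at this
    exact this.2
  choose u v huv hu hv using hpair
  let A : Fin L → Finset (Fin k × Fin m → Fin K) := fun j =>
    if h : j ∈ J' then univ.filter (fun f => f (u j h) ≠ f (v j h)) else univ
  have hsub : (univ.filter fun c : Fin L → Fin k × Fin m → Fin K => BCl β Q c) ⊆
      Fintype.piFinset A := by
    intro c hc
    rw [mem_filter] at hc
    rw [Fintype.mem_piFinset]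
    intro j
    by_cases h : j ∈ J'
    · simp only [A, dif_pos h, mem_filter, mem_univ, true_and]
      exact hrain c hc.2 j _ _ (huv j h) (hu j h) (hv j h)
    · simp only [A, dif_neg h, mem_univ]
  have hA : ∀ j, (A j).card * (if j ∈ J' then K else 1) ≤
      K ^ (k * m) * (if j ∈ J' then K - 1 else 1) := by
    intro j
    by_cases h : j ∈ J'
    · simp only [A, dif_pos h, if_pos h]
      have := card_ne (K := K) (u j h) (v j h) (huv j h)
      rwa [Fintype.card_prod, Fintype.card_fin, Fintype.card_fin] at this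
    · simp only [A, dif_neg h, if_neg h, mul_one]
      rw [card_univ, Fintype.card_fun, Fintype.card_prod, Fintype.card_fin, Fintype.card_fin,
        Fintype.card_fin]
  calc (univ.filter fun c : Fin L → Fin k × Fin m → Fin K => BCl β Q c).card * K ^ N
      ≤ (Fintype.piFinset A).card * K ^ N := Nat.mul_le_mul_right _ (card_le_card hsub)
    _ = (∏ j, (A j).card) * ∏ j, (if j ∈ J' then K else 1) := by
        rw [Fintype.card_piFinset, prod_ite_mem, univ_inter, prod_const, hJc]
    _ = ∏ j, ((A j).card * (if j ∈ J' then K else 1)) := prod_mul_distrib.symm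
    _ ≤ ∏ j : Fin L, (K ^ (k * m) * (if j ∈ J' then K - 1 else 1)) :=
        prod_le_prod' fun j _ => hA j
    _ = (K ^ (k * m)) ^ L * (K - 1) ^ N := by
        rw [prod_mul_distrib, prod_ite_mem, univ_inter, prod_const, prod_const, hJc]
        simp

open Classical in
/-- Most choices of the colourings give no clique with `g` points. -/
theorem card_bad [Fintype B] {β : Fin L → Fin k × Fin m → B} (hβ : Linear β) (hK : 1 ≤ K)
    (g a e M : ℕ) (hB : Fintype.card B ≤ 2 ^ a) (hM : a * g + e ≤ M)
    (hg : K * M * (K * K) + g ≤ g * g) :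
    2 ^ e * (univ.filter fun c : Fin L → Fin k × Fin m → Fin K =>
      ∃ Q : Finset B, Q.card = g ∧ BCl β Q c).card ≤ (K ^ (k * m)) ^ L := by
  set N := K * M with hN
  have hsub : (univ.filter fun c : Fin L → Fin k × Fin m → Fin K =>
      ∃ Q : Finset B, Q.card = g ∧ BCl β Q c) ⊆
      (powersetCard g (univ : Finset B)).biUnion fun Q =>
        univ.filter fun c : Fin L → Fin k × Fin m → Fin K => BCl β Q c := by
    intro c hc
    rw [mem_filter] at hc
    obtain ⟨Q, hQ, hc⟩ := hc.2
    rw [mem_biUnion]
    exact ⟨Q, by simp [mem_powersetCard, hQ], by simp [hc]⟩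
  have h1 : (univ.filter fun c : Fin L → Fin k × Fin m → Fin K =>
      ∃ Q : Finset B, Q.card = g ∧ BCl β Q c).card * K ^ N ≤
      2 ^ (a * g) * ((K ^ (k * m)) ^ L * (K - 1) ^ N) := by
    calc (univ.filter fun c : Fin L → Fin k × Fin m → Fin K =>
          ∃ Q : Finset B, Q.card = g ∧ BCl β Q c).card * K ^ N
        ≤ (∑ Q ∈ powersetCard g (univ : Finset B),
            (univ.filter fun c : Fin L → Fin k × Fin m → Fin K => BCl β Q c).card) * K ^ N :=
          Nat.mul_le_mul_right _ ((card_le_card hsub).trans card_biUnion_le)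
      _ = ∑ Q ∈ powersetCard g (univ : Finset B),
            (univ.filter fun c : Fin L → Fin k × Fin m → Fin K => BCl β Q c).card * K ^ N :=
          sum_mul _ _ _
      _ ≤ ∑ Q ∈ powersetCard g (univ : Finset B), (K ^ (k * m)) ^ L * (K - 1) ^ N := by
          refine sum_le_sum fun Q hQ => ?_
          rw [mem_powersetCard] at hQ
          refine card_BCl hβ hK Q N ?_
          rw [hQ.2]
          exact hg
      _ = (Fintype.card B).choose g * ((K ^ (k * m)) ^ L * (K - 1) ^ N) := by
          rw [sum_const, card_powersetCard, card_univ, smul_eq_mul]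
      _ ≤ 2 ^ (a * g) * ((K ^ (k * m)) ^ L * (K - 1) ^ N) := by
          apply Nat.mul_le_mul_right
          calc (Fintype.card B).choose g ≤ (Fintype.card B) ^ g := Nat.choose_le_pow _ _
            _ ≤ (2 ^ a) ^ g := Nat.pow_le_pow_left hB _
            _ = 2 ^ (a * g) := (pow_mul _ _ _).symm
  have h2 : 2 ^ M * (K - 1) ^ N ≤ K ^ N := by
    have := Nat.pow_le_pow_left (CliqueCircuits.pack_pow_le K hK) M
    calc 2 ^ M * (K - 1) ^ N = (2 * (K - 1) ^ K) ^ M := by
          rw [mul_pow, ← pow_mul]
      _ ≤ (K ^ K) ^ M := this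
      _ = K ^ N := by rw [← pow_mul]
  have hpos : 0 < K ^ N := pow_pos hK _
  refine Nat.le_of_mul_le_mul_right ?_ hpos
  calc 2 ^ e * (univ.filter fun c : Fin L → Fin k × Fin m → Fin K =>
      ∃ Q : Finset B, Q.card = g ∧ BCl β Q c).card * K ^ N
      = 2 ^ e * ((univ.filter fun c : Fin L → Fin k × Fin m → Fin K =>
      ∃ Q : Finset B, Q.card = g ∧ BCl β Q c).card * K ^ N) := by ring
    _ ≤ 2 ^ e * (2 ^ (a * g) * ((K ^ (k * m)) ^ L * (K - 1) ^ N)) := Nat.mul_le_mul_left _ h1
    _ = (K ^ (k * m)) ^ L * (2 ^ (a * g + e) * (K - 1) ^ N) := by rw [pow_add]; ring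
    _ ≤ (K ^ (k * m)) ^ L * (2 ^ M * (K - 1) ^ N) :=
        Nat.mul_le_mul_left _ (Nat.mul_le_mul_right _ (Nat.pow_le_pow_right (by norm_num) hM))
    _ ≤ (K ^ (k * m)) ^ L * K ^ N := Nat.mul_le_mul_left _ h2

end Pool.Agent.CliqueModules
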