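import Pool.Agent.Lib.MP_0a1b52_lc_GAP.Plane
import Pool.Agent.Lib.MP_0a1b52_lc_GAP.DefsG
import Pool.Agent.Lib.MP_0a1b52_lc_RND.Core

/-!
One step of the chain: almost all colourings of the next line change the value of a target, unless
the planted transversals are not noticed.
-/

namespace Pool.Agent.CliqueModules

open Finset
open Pool.Agent.CliqueCircuits (InTy trans OState stN Det)

open Classical in
/-- Few colourings are not injective on a small set. -/
theorem card_not_inj {U : Type} [Fintype U] [DecidableEq U] {K : ℕ} (X : Finset U) (l : ℕ)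
    (hX : X.card ≤ l) :
    (univ.filter fun c : U → Fin K => ¬ Set.InjOn c X).card * K ≤
      l * l * K ^ Fintype.card U := by
  have hsub : (univ.filter fun c : U → Fin K => ¬ Set.InjOn c X) ⊆
      ((X ×ˢ X).filter fun e => e.1 ≠ e.2).biUnion
        fun e => univ.filter fun c : U → Fin K => c e.1 = c e.2 := by
    intro c hc
    rw [mem_filter] at hc
    have h := hc.2
    simp only [Set.InjOn, mem_coe, not_forall] at h
    obtain ⟨a, ha, b, hb, hab, hne⟩ := h
    rw [mem_biUnion]
    exact ⟨(a, b), by simp [ha, hb, hne], by simp [hab]⟩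
  have h1 : ∀ e ∈ (X ×ˢ X).filter (fun e => e.1 ≠ e.2),
      (univ.filter fun c : U → Fin K => c e.1 = c e.2).card * K ≤ K ^ Fintype.card U := by
    intro e he
    have hne : e.1 ≠ e.2 := (mem_filter.1 he).2
    have hdet : Det (univ.filter fun c : U → Fin K => c e.1 = c e.2) {e.2} := by
      intro c hc c' hc' hcc
      simp only [mem_filter, mem_univ, true_and] at hc hc'
      funext v
      by_cases hv : v = e.2
      · subst hv
        rw [← hc, ← hc']
        exact hcc _ (by simpa using hne)
      · exact hcc v (by simpa using hv)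
    have := hdet.card_le
    rwa [card_singleton, pow_one] at this
  calc (univ.filter fun c : U → Fin K => ¬ Set.InjOn c X).card * K
      ≤ (∑ e ∈ (X ×ˢ X).filter (fun e => e.1 ≠ e.2),
        (univ.filter fun c : U → Fin K => c e.1 = c e.2).card) * K :=
        Nat.mul_le_mul_right _ ((card_le_card hsub).trans card_biUnion_le)
    _ = ∑ e ∈ (X ×ˢ X).filter (fun e => e.1 ≠ e.2),
        (univ.filter fun c : U → Fin K => c e.1 = c e.2).card * K := sum_mul _ _ _
    _ ≤ ∑ e ∈ (X ×ˢ X).filter (fun e => e.1 ≠ e.2), K ^ Fintype.card U := sum_le_sum h1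
    _ = ((X ×ˢ X).filter (fun e => e.1 ≠ e.2)).card * K ^ Fintype.card U := by
        rw [sum_const, smul_eq_mul]
    _ ≤ l * l * K ^ Fintype.card U := by
        apply Nat.mul_le_mul_right
        refine (card_filter_le _ _).trans ?_
        rw [card_product]
        exact Nat.mul_le_mul hX hX

variable {n k q K t f s L : ℕ} {B : Type}

open Classical in
/-- One step. -/
theorem gap_step [Nonempty (EdgeVar n)] (D : Circuit (EdgeVar n) s)
    {β : Fin L → Fin k × Fin (2 * q) → B} (hβ : Linear β) {ε : (B × Fin t) ⊕ Fin f → Fin n}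
    (hε : Function.Injective ε) (l : ℕ) (hq : 1 ≤ q) (hl : 2 ≤ l)
    (h1 : 8 * (s * (l * l) ^ (q + 1)) ≤ K ^ (q + 1))
    (h3 : 8 * (l * l) ≤ K) (st : Fin L → OState k (2 * q) K) (j : Fin L)
    (hstj : st j = OState.zero) :
    ((univ.filter fun p : Fin k → Fin (2 * q) =>
        D.Acc (pasg β ε (Function.update st j (OState.tr p))) ∧
        ¬ D.Acc (pasg β ε st)).card * 2 ^ (l + 1) ≤ s * (2 * q) ^ k) ∨
    (Fintype.card (Fin k × Fin (2 * q) → Fin K) ≤
      4 * (univ.filter fun h : Fin k × Fin (2 * q) → Fin K =>
        D.Changes (pasg β ε st) (pasg β ε (Function.update st j (OState.col h)))).card) := by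
  have hmono : ∀ s0 : OState k (2 * q) K, ∀ j' u v, (st j').rel u v →
      (Function.update st j s0 j').rel u v := by
    intro s0 j' u v h
    by_cases hjj : j' = j
    · subst hjj
      rw [hstj] at h
      exact absurd h id
    · rwa [Function.update_of_ne hjj]
  obtain ⟨b, hb⟩ := D.exists_eval (pasg β ε st)
  obtain ⟨τ, hτne, hτp, hτn⟩ := PG_type hβ hε st j hstj
  have hXp : ∀ p, (fun v => (τ v).pos p) = pasg β ε (Function.update st j (OState.tr p)) := by
    intro p
    funext v
    exact propext (hτp p v)
  have hXn : ∀ f, (fun v => (τ v).neg f) = pasg β ε (Function.update st j (OState.col f)) := by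
    intro f
    funext v
    exact propext (hτn f v)
  obtain ⟨BadP, BadN, hPc, hNc, hdich⟩ := approx_dich D b τ hτne K q l hq hl
  by_cases hA : ∃ w, D.IsTarget w ∧ ¬ Sum.elim (pasg β ε st) b w ∧
      ∃ X : Finset (Fin k × Fin (2 * q)), X.card ≤ l ∧
          ∀ f ∉ BadN, Set.InjOn f X → ∀ val, D.IsFrozen b (fun v => (τ v).neg f) val →
            Sum.elim (fun v => (τ v).neg f) val w
  · right
    obtain ⟨w, hw, hwb, X, hXl, hX⟩ := hA
    have hKpos : 0 < K := by nlinarith
    have hcX : Fintype.card (Fin k × Fin (2 * q) → Fin K) = K ^ (k * (2 * q)) := by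
      rw [Fintype.card_fun, Fintype.card_prod, Fintype.card_fin, Fintype.card_fin,
        Fintype.card_fin]
    have e1 : 8 * BadN.card ≤ K ^ (k * (2 * q)) := by
      have hpos : 0 < K ^ (q + 1) := pow_pos hKpos _
      refine Nat.le_of_mul_le_mul_right ?_ hpos
      calc 8 * BadN.card * K ^ (q + 1) = 8 * (BadN.card * K ^ (q + 1)) := by ring
        _ ≤ 8 * (s * ((l * l) ^ (q + 1) * K ^ (k * (2 * q)))) := Nat.mul_le_mul_left _ hNc
        _ = 8 * (s * (l * l) ^ (q + 1)) * K ^ (k * (2 * q)) := by ring
        _ ≤ K ^ (q + 1) * K ^ (k * (2 * q)) := Nat.mul_le_mul_right _ h1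
        _ = K ^ (k * (2 * q)) * K ^ (q + 1) := by ring
    have e2 : 8 * (univ.filter fun f : Fin k × Fin (2 * q) → Fin K => ¬ Set.InjOn f X).card ≤
        K ^ (k * (2 * q)) := by
      refine Nat.le_of_mul_le_mul_right ?_ hKpos
      have h4 := card_not_inj (K := K) X l hXl
      rw [Fintype.card_prod, Fintype.card_fin, Fintype.card_fin] at h4
      calc 8 * (univ.filter fun f : Fin k × Fin (2 * q) → Fin K => ¬ Set.InjOn f X).card * K
          = 8 * ((univ.filter fun f : Fin k × Fin (2 * q) → Fin K =>
              ¬ Set.InjOn f X).card * K) := by ring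
        _ ≤ 8 * (l * l * K ^ (k * (2 * q))) := Nat.mul_le_mul_left _ h4
        _ = 8 * (l * l) * K ^ (k * (2 * q)) := by ring
        _ ≤ K * K ^ (k * (2 * q)) := Nat.mul_le_mul_right _ h3
        _ = K ^ (k * (2 * q)) * K := by ring
    have hcov : (univ : Finset (Fin k × Fin (2 * q) → Fin K)) ⊆
        (univ.filter fun h : Fin k × Fin (2 * q) → Fin K =>
          D.Changes (pasg β ε st) (pasg β ε (Function.update st j (OState.col h)))) ∪
        (BadN ∪ univ.filter fun f => ¬ Set.InjOn f X) := by
      intro f _
      by_cases hf1 : f ∈ BadN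
      · exact mem_union_right _ (mem_union_left _ hf1)
      by_cases hf3 : Set.InjOn f X
      swap
      · exact mem_union_right _ (mem_union_right _ (by simp [hf3]))
      apply mem_union_left
      refine mem_filter.2 ⟨mem_univ _, ?_⟩
      obtain ⟨val', hval'⟩ := D.exists_eval (pasg β ε (Function.update st j (OState.col f)))
      by_contra hcon
      have hcon' : ∀ w, D.IsTarget w →
          (Sum.elim (pasg β ε st) b w ↔
            Sum.elim (pasg β ε (Function.update st j (OState.col f))) val' w) := by
        intro w hw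
        by_contra hne
        exact hcon ⟨b, val', w, hb, hval', hw, hne⟩
      have hfr : D.IsFrozen b (pasg β ε (Function.update st j (OState.col f))) val' := by
        intro i
        have hi := hval' i
        cases hgi : D.gate i with
        | and J => rw [hgi] at hi; exact hi
        | or J => rw [hgi] at hi; exact hi
        | special J φ =>
          rw [hgi] at hi
          rw [hi]
          have h5 := hb i
          rw [hgi] at h5
          show _ ↔ b i
          rw [h5]
          exact (Gate.value_congr (g := Gate.special J φ)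
            (fun w hw => hcon' w (Or.inr ⟨i, J, φ, hgi, hw⟩))).symm
      have hwt := hX f hf1 hf3 val' (by rw [hXn]; exact hfr)
      rw [hXn] at hwt
      exact hwb ((hcon' w hw).2 hwt)
    have h6 := (card_le_card hcov).trans ((card_union_le _ _).trans
      (Nat.add_le_add_left (card_union_le _ _) _))
    rw [card_univ, hcX] at h6
    rw [hcX]
    omega
  · left
    have hsub : (univ.filter fun p : Fin k → Fin (2 * q) =>
        D.Acc (pasg β ε (Function.update st j (OState.tr p))) ∧
        ¬ D.Acc (pasg β ε st)) ⊆ BadP := by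
      intro p hp
      obtain ⟨-, ⟨val', hval', hout'⟩, hnacc⟩ := mem_filter.1 hp
      by_contra hpB
      obtain ⟨valP, hvalP⟩ := D.exists_frozen b (pasg β ε (Function.update st j (OState.tr p)))
      have hkey : ∀ w, D.IsTarget w →
          (Sum.elim (pasg β ε st) b w ↔
            Sum.elim (pasg β ε (Function.update st j (OState.tr p))) valP w) := by
        intro w hw
        constructor
        · exact hb.isFrozen.mono hvalP (fun v => PG_mono (hmono _) _ _) w
        · intro hwp
          by_contra hwb
          rcases hdich w with h | ⟨X, hXl, hX⟩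
          · have := h p hpB valP (by rw [hXp]; exact hvalP)
            rw [hXp] at this
            exact this hwp
          · exact hA ⟨w, hw, hwb, X, hXl, hX⟩
      have heval : D.IsEval (pasg β ε (Function.update st j (OState.tr p))) valP := by
        refine Circuit.IsFrozen.isEval (x := pasg β ε st) (val := b) hb hvalP ?_
        intro i J φ hi w hw
        exact hkey w (Or.inr ⟨i, J, φ, hi, hw⟩)
      have hvv : valP = val' := heval.unique hval'
      have h3 : b D.out := (hkey (Sum.inr D.out) (Or.inl rfl)).2 (by
        show valP D.out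
        rw [hvv]
        exact hout')
      exact hnacc ⟨b, hb, h3⟩
    have hqpos : 0 < q ^ (l + 1) := pow_pos hq _
    refine Nat.le_of_mul_le_mul_right ?_ hqpos
    calc (univ.filter fun p : Fin k → Fin (2 * q) =>
        D.Acc (pasg β ε (Function.update st j (OState.tr p))) ∧
        ¬ D.Acc (pasg β ε st)).card * 2 ^ (l + 1) * q ^ (l + 1)
        ≤ BadP.card * 2 ^ (l + 1) * q ^ (l + 1) :=
          Nat.mul_le_mul_right _ (Nat.mul_le_mul_right _ (card_le_card hsub))
      _ = BadP.card * (2 * q) ^ (l + 1) := by rw [mul_pow, mul_assoc]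
      _ ≤ s * (q ^ (l + 1) * (2 * q) ^ k) := hPc
      _ = s * (2 * q) ^ k * q ^ (l + 1) := by rw [mul_comm (q ^ (l + 1)), mul_assoc]

end Pool.Agent.CliqueModules
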